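import Pool.Agent.H.MP_9525dc_co.Defs

set_option autoImplicit false

namespace Pool.Agent.Results.MP_9525dc_co.Lower

open Pool.Agent.H.MP_9525dc_co

def rel (a : Fin 5) (x y : Fin 5) : Bool :=
  (x ≠ y && x.val < 3 && y.val < 3) || (x = 3 && y = 0) || (x = 0 && y = 3) ||
    (x = 4 && y = a) || (x = a && y = 4)

def gr (a : Fin 5) (ha : a ≠ 4) : SimpleGraph (Fin 5) where
  Adj x y := rel a x y = true
  symm := ⟨by revert a; decide⟩
  loopless := ⟨by revert a; decide⟩

def bull : SimpleGraph (Fin 5) := gr 1 (by decide)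
def cricket : SimpleGraph (Fin 5) := gr 0 (by decide)

instance : DecidableRel bull.Adj := fun x y => inferInstanceAs (Decidable (rel 1 x y = true))
instance : DecidableRel cricket.Adj := fun x y => inferInstanceAs (Decidable (rel 0 x y = true))

theorem end_bull (v : Fin 5) : IsEnd bull v ↔ (v = 3 ∨ v = 4) := by
  unfold IsEnd ExistsUnique; revert v; decide

theorem end_cricket (v : Fin 5) : IsEnd cricket v ↔ (v = 3 ∨ v = 4) := by
  unfold IsEnd ExistsUnique; revert v; decide

def card3 : bull.induce {x | x ≠ 3} ≃g cricket.induce {x | x ≠ 3} where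
  toEquiv := (Equiv.swap (0 : Fin 5) 1).subtypeEquiv (by decide)
  map_rel_iff' := by
    rintro ⟨a, ha⟩ ⟨b, hb⟩
    have : ∀ a b : Fin 5, a ≠ 3 → b ≠ 3 →
      (cricket.Adj (Equiv.swap (0 : Fin 5) 1 a) (Equiv.swap (0 : Fin 5) 1 b) ↔ bull.Adj a b) := by
      decide
    exact this a b ha hb

def card4 : bull.induce {x | x ≠ 4} ≃g cricket.induce {x | x ≠ 4} where
  toEquiv := Equiv.refl _
  map_rel_iff' := by
    rintro ⟨a, ha⟩ ⟨b, hb⟩
    have : ∀ a b : Fin 5, a ≠ 4 → b ≠ 4 → (cricket.Adj a b ↔ bull.Adj a b) := by decide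
    exact this a b ha hb

theorem result : ∀ α : ℝ, Sufficient α → 2 / 5 < α := by
  intro α h
  by_contra hc
  have hcard : ({v | IsEnd bull v} : Set (Fin 5)).ncard = 2 := by
    have : ({v | IsEnd bull v} : Set (Fin 5)) = {3, 4} := by
      ext v; simp [end_bull]
    rw [this, Set.ncard_pair (by decide)]
  have h1 := h 5 bull (by omega) (by unfold NoIsolated; decide) (by
    rw [hcard]; push_cast; linarith [not_lt.1 hc])
  obtain ⟨φ⟩ := h1 5 cricket (by unfold NoIsolated; decide)
    ⟨Equiv.subtypeEquivRight (fun v => by rw [end_bull, end_cricket]), by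
      rintro ⟨v, hv⟩
      rcases (end_bull v).1 hv with rfl | rfl
      · exact ⟨card3⟩
      · exact ⟨card4⟩⟩
  have key : ∀ a : Fin 5, ∃ b, b ≠ a ∧ ¬ bull.Adj a b := by decide
  obtain ⟨b, hb, hn⟩ := key (φ.symm 0)
  apply hn
  rw [← φ.map_rel_iff, RelIso.apply_symm_apply]
  have k2 : ∀ c : Fin 5, c ≠ 0 → cricket.Adj 0 c := by decide
  apply k2
  intro h0
  apply hb
  rw [← h0, RelIso.symm_apply_apply]

end Pool.Agent.Results.MP_9525dc_co.Lower
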